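import Pool.Agent.H21.Zar

set_option autoImplicit false

namespace Pool.Agent.Results.MP_10302a_co.UnboundedA

open Pool.Agent.H21.Zar

theorem result : ¬ ∃ C : ℝ, ∀ m n : ℕ, 2 ≤ m → 2 ≤ n → (z3A m n : ℝ) ≤ C * (m * √n + n) :=
  unb z3A fun _ _ G h _ => le_csSup ⟨_, by rintro _ ⟨G, -, rfl⟩; exact size_le G⟩ ⟨G, h, rfl⟩

end Pool.Agent.Results.MP_10302a_co.UnboundedA
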